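import Pool.Agent.Work.MP_bdf4c5_gt.Assembly

/-!
Negative answer to Q1 of MP_bdf4c5_gt, in ZFC: a Tychonoff space whose co-diagonal is discretely
σ-compact, but which has no countable network.
-/

namespace Pool.Agent.Results.MP_bdf4c5_gt.NotCosmic

open Pool.Agent.Work.MP_bdf4c5_gt

theorem result : ∃ (X : Type) (_ : TopologicalSpace X), T35Space X ∧
    DiscretelySigmaCompact (Codiagonal X) ∧ ¬ Cosmic X :=
  main

end Pool.Agent.Results.MP_bdf4c5_gt.NotCosmic
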